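import Pool.Agent.P.MP_7d0087_nt.Final

/-!
The sum `S_p = ∑_{k<p} binom(-1/2,k) binom(-1/3,k) / (-4)^k` modulo `p^2`.
Parts 1 and 3 hold as posed; part 2 holds with the opposite sign, and fails as printed.
-/

namespace Pool.Agent.Results.MP_7d0087_nt.SignCorrected

/-- The generalized binomial coefficient `a(a-1)...(a-k+1)/k!`. -/
def binom (a : ℚ) (k : ℕ) : ℚ := (∏ j ∈ Finset.range k, (a - j)) / (k.factorial : ℚ)

/-- The sum `S_p`. -/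
def S (p : ℕ) : ℚ := ∑ k ∈ Finset.range p, binom (-1 / 2) k * binom (-1 / 3) k / (-4) ^ k

/-- `x ≡ y (mod p^m)`: `p^m` divides the numerator of the reduced fraction `x - y`
(for `m ≥ 1` this says that `x - y` lies in `p^m ℤ_(p)`). -/
def Cong (p m : ℕ) (x y : ℚ) : Prop := (p : ℤ) ^ m ∣ (x - y).num

theorem result (p : ℕ) (hp : p.Prime) (h5 : 5 < p) :
    (∀ A B : ℤ, p % 3 = 1 → (p : ℤ) = A ^ 2 + 3 * B ^ 2 → A ≡ 1 [ZMOD 3] → 5 ∣ A * B →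
      Cong p 2 (S p) ((jacobiSym p 5 : ℚ) * (2 * A - p / (2 * A)))) ∧
    (∀ A B : ℤ, p % 3 = 1 → (p : ℤ) = A ^ 2 + 3 * B ^ 2 → A ≡ 1 [ZMOD 3] →
      (A ≡ -B [ZMOD 5] ∨ A ≡ -2 * B [ZMOD 5]) →
      Cong p 2 (S p) (-((jacobiSym p 5 : ℚ) * (A + 3 * B - p / (A + 3 * B)))) ∧
        ¬ Cong p 2 (S p) ((jacobiSym p 5 : ℚ) * (A + 3 * B - p / (A + 3 * B)))) ∧
    (p % 3 = 2 → Cong p 1 (S p) 0) := by
  haveI : Fact p.Prime := ⟨hp⟩
  refine ⟨fun A B h3 hAB hA h => Pool.Agent.P.MP_7d0087_nt.main_one h5 A B h3 hAB hA h,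
    fun A B h3 hAB hA h => Pool.Agent.P.MP_7d0087_nt.main_two h5 A B h3 hAB hA h, fun h3 => ?_⟩
  unfold Cong
  rw [pow_one, sub_zero]
  exact Pool.Agent.P.MP_7d0087_nt.main_three h5 h3

end Pool.Agent.Results.MP_7d0087_nt.SignCorrected
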